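import Pool.Agent.Q266.CF8

/-!
# MP_c0fb52_nt, Q1: the identity `F_3(1,5,1,12) = χ(Λ_5)` holds

Everything takes place in `ℤ⟦X⟧`, with `X` in the role of `q`.
-/

set_option autoImplicit false

namespace Pool.Agent.Results.MP_c0fb52_nt.QuadSum

open PowerSeries
open scoped PowerSeries.WithPiTopology

/-- `(q^a; q^a)_n = ∏_{m<n} (1 - q^{a(m+1)})` -/
noncomputable def qp (a n : ℕ) : ℤ⟦X⟧ := ∏ m ∈ Finset.range n, (1 - X ^ (a * (m + 1)))

/-- `(q^a; q^c)_∞ = ∏_{m≥0} (1 - q^{a+cm})` -/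
noncomputable def qinf (a c : ℕ) : ℤ⟦X⟧ := ∏' m : ℕ, (1 - X ^ (a + c * m))

/-- the inverse of a power series with constant coefficient `1` -/
noncomputable def inv (f : ℤ⟦X⟧) : ℤ⟦X⟧ := invOfUnit f 1

/-- the quadratic form `E(i,j,k,l)` of the problem -/
def E (i j k l : ℕ) : ℕ :=
  2 * i.choose 2 + 4 * j.choose 2 + 2 * k.choose 2 + 16 * l.choose 2 + 2 * i * j + 2 * i * k +
    4 * i * l + 4 * j * k + 8 * j * l + 4 * k * l

/-- the term of `F_3(a,b,c,d)` with index `(i,j,k,l)` -/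
noncomputable def term (a b c d : ℕ) : ℕ × ℕ × ℕ × ℕ → ℤ⟦X⟧ := fun (i, j, k, l) =>
  (-1) ^ k * X ^ (E i j k l + a * i + b * j + c * k + d * l) *
    inv (qp 1 i * qp 2 j * qp 2 k * qp 4 l)

/-- `χ(Λ_5)`: `(q^16;q^16)_∞ [q^10;q^16]_∞ / ((q^2;q^2)_∞ [q^5;q^16]_∞)`,
with `[x;q]_∞ = (x;q)_∞ (q/x;q)_∞` -/
noncomputable def chi5 : ℤ⟦X⟧ :=
  qinf 16 16 * (qinf 10 16 * qinf 6 16) * inv (qinf 2 2 * (qinf 5 16 * qinf 11 16))

/-- the infinite products converge and have constant coefficient `1` -/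
theorem qinf_spec {a c : ℕ} (ha : 1 ≤ a) (hc : 1 ≤ c) :
    Multipliable (fun m : ℕ => (1 - X ^ (a + c * m) : ℤ⟦X⟧)) ∧ constantCoeff (qinf a c) = 1 :=
  ⟨Q266.CF.mult_pr ha hc, Q266.CF.constCoeff_pr ha hc⟩

/-- `inv` is the inverse -/
theorem mul_inv (f : ℤ⟦X⟧) (h : constantCoeff f = 1) : f * inv f = 1 :=
  mul_invOfUnit f 1 (by rw [h]; simp)

open Q266.CF Q279.QS in
theorem inv_prod (i j k l : ℕ) :
    inv (qp 1 i * qp 2 j * qp 2 k * qp 4 l) = V 1 i * V 2 j * V 2 k * V 4 l := by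
  have h1 : qp 1 i * V 1 i = 1 := P_mul_V (by norm_num) i
  have h2 : qp 2 j * V 2 j = 1 := P_mul_V (by norm_num) j
  have h3 : qp 2 k * V 2 k = 1 := P_mul_V (by norm_num) k
  have h4 : qp 4 l * V 4 l = 1 := P_mul_V (by norm_num) l
  have hc : constantCoeff (qp 1 i * qp 2 j * qp 2 k * qp 4 l) = 1 := by
    rw [map_mul, map_mul, map_mul]
    have c1 : constantCoeff (qp 1 i) = 1 := constCoeff_P (by norm_num) i
    have c2 : constantCoeff (qp 2 j) = 1 := constCoeff_P (by norm_num) j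
    have c3 : constantCoeff (qp 2 k) = 1 := constCoeff_P (by norm_num) k
    have c4 : constantCoeff (qp 4 l) = 1 := constCoeff_P (by norm_num) l
    rw [c1, c2, c3, c4]; norm_num
  have h := mul_inv _ hc
  have h5 : (qp 1 i * qp 2 j * qp 2 k * qp 4 l) * (V 1 i * V 2 j * V 2 k * V 4 l) = 1 := by
    calc _ = (qp 1 i * V 1 i) * (qp 2 j * V 2 j) * (qp 2 k * V 2 k) * (qp 4 l * V 4 l) := by ring
      _ = 1 := by rw [h1, h2, h3, h4]; norm_num
  calc inv (qp 1 i * qp 2 j * qp 2 k * qp 4 l) = inv (qp 1 i * qp 2 j * qp 2 k * qp 4 l) *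
        ((qp 1 i * qp 2 j * qp 2 k * qp 4 l) * (V 1 i * V 2 j * V 2 k * V 4 l)) := by
        rw [h5, mul_one]
    _ = ((qp 1 i * qp 2 j * qp 2 k * qp 4 l) * inv (qp 1 i * qp 2 j * qp 2 k * qp 4 l)) *
        (V 1 i * V 2 j * V 2 k * V 4 l) := by ring
    _ = _ := by rw [h, one_mul]

/-- **Theorem.** The family of terms of `F_3(1,5,1,12)` is summable in `ℤ⟦q⟧` with sum `χ(Λ_5)`:
`F_3(1,5,1,12) = χ(Λ_5)`. -/
theorem result : HasSum (term 1 5 1 12) chi5 := by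
  have h0 : term 1 5 1 12 = fun p : ℕ × ℕ × ℕ × ℕ => Q266.CF.tm p.1 p.2.1 p.2.2.1 p.2.2.2 := by
    funext p
    obtain ⟨i, j, k, l⟩ := p
    simp only [term, Q266.CF.tm]
    rw [inv_prod]
    congr 3
    unfold E Q266.CF.E4
    ring
  have h1 : chi5 = Q266.CF.F3 := by
    have e16 : qinf 16 16 = Q279.QS.eul 16 := by
      unfold qinf Q279.QS.eul
      exact tprod_congr fun m => by rw [show 16 + 16 * m = 16 * (m + 1) by ring]
    have e2 : qinf 2 2 = Q279.QS.eul 2 := by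
      unfold qinf Q279.QS.eul
      exact tprod_congr fun m => by rw [show 2 + 2 * m = 2 * (m + 1) by ring]
    have h := Q266.CF.F3_five
    have hc : constantCoeff (qinf 2 2 * (qinf 5 16 * qinf 11 16)) = 1 := by
      rw [map_mul, map_mul, (qinf_spec (by norm_num) (by norm_num)).2,
        (qinf_spec (by norm_num) (by norm_num)).2, (qinf_spec (by norm_num) (by norm_num)).2]
      norm_num
    have hi := mul_inv _ hc
    have h' : Q266.CF.F3 * qinf 2 2 * (qinf 5 16 * qinf 11 16) =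
        qinf 16 16 * (qinf 10 16 * qinf 6 16) := by
      rw [e2, e16]; exact h
    unfold chi5
    rw [← h']
    linear_combination Q266.CF.F3 * hi
  rw [h0, h1]
  exact Q266.CF.hasSum_F3

end Pool.Agent.Results.MP_c0fb52_nt.QuadSum
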